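import Mathlib

/-!
# Two-colour Ramsey numbers: elementary bounds
-/

set_option autoImplicit false

namespace Pool.Agent.N703.RD

/-- the Ramsey number -/
noncomputable def R (s t : ℕ) : ℕ :=
  sInf {n : ℕ | ∀ G : SimpleGraph (Fin n), ¬ G.CliqueFree s ∨ ¬ Gᶜ.CliqueFree t}

/-- there is a good colouring of the complete graph with `n` vertices -/
def Good (s t n : ℕ) : Prop := ∃ G : SimpleGraph (Fin n), G.CliqueFree s ∧ Gᶜ.CliqueFree t

theorem good_symm {s t n : ℕ} (h : Good s t n) : Good t s n := by
  obtain ⟨G, h1, h2⟩ := h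
  exact ⟨Gᶜ, h2, by rwa [compl_compl]⟩

theorem compl_comap {V W : Type} (G : SimpleGraph V) (f : W ↪ V) :
    (G.comap f)ᶜ = Gᶜ.comap f := by
  ext x y
  simp [f.injective.ne_iff]

theorem good_of {V : Type} [Fintype V] {s t m : ℕ} (G : SimpleGraph V) (h1 : G.CliqueFree s)
    (h2 : Gᶜ.CliqueFree t) (hm : m ≤ Fintype.card V) : Good s t m := by
  obtain ⟨f⟩ : Nonempty (Fin m ↪ V) := Function.Embedding.nonempty_of_card_le (by simpa using hm)
  refine ⟨G.comap f, h1.comap ⟨(SimpleGraph.Embedding.comap f G).toCopy⟩, ?_⟩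
  rw [compl_comap]
  exact h2.comap ⟨(SimpleGraph.Embedding.comap f Gᶜ).toCopy⟩

theorem good_mono {s t n m : ℕ} (h : Good s t n) (hm : m ≤ n) : Good s t m := by
  obtain ⟨G, h1, h2⟩ := h
  exact good_of G h1 h2 (by simpa using hm)

theorem good_mono_left {s s' t n : ℕ} (h : Good s t n) (hs : s ≤ s') : Good s' t n := by
  obtain ⟨G, h1, h2⟩ := h
  exact ⟨G, h1.mono hs, h2⟩

theorem good_mono_right {s t t' n : ℕ} (h : Good s t n) (ht : t ≤ t') : Good s t' n := by
  obtain ⟨G, h1, h2⟩ := h
  exact ⟨G, h1, h2.mono ht⟩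

theorem not_good_zero_left (t n : ℕ) : ¬ Good 0 t n := by
  rintro ⟨G, h1, _⟩
  exact h1 ∅ (by simp [SimpleGraph.isNClique_iff])

/-- the neighbourhood of a vertex -/
theorem good_nbr {V : Type} {s t a : ℕ} (G : SimpleGraph V) (v : V)
    [Fintype {x // G.Adj v x}]
    (h1 : G.CliqueFree (s + 1)) (h2 : Gᶜ.CliqueFree t)
    (ha : a ≤ Fintype.card {x // G.Adj v x}) : Good s t a := by
  classical
  refine good_of (G.comap (Function.Embedding.subtype fun x => G.Adj v x)) ?_ ?_ ha
  · intro K hK
    apply h1 (insert v (K.map (Function.Embedding.subtype fun x => G.Adj v x)))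
    rw [SimpleGraph.isNClique_iff] at hK ⊢
    constructor
    · intro x hx y hy hxy
      rw [Finset.coe_insert, Set.mem_insert_iff, Finset.mem_coe, Finset.mem_map] at hx hy
      rcases hx with rfl | ⟨x', hx', rfl⟩
      · rcases hy with rfl | ⟨y', hy', rfl⟩
        · exact absurd rfl hxy
        · exact y'.2
      · rcases hy with rfl | ⟨y', hy', rfl⟩
        · exact x'.2.symm
        · exact hK.1 hx' hy' (fun h => hxy (congrArg _ h))
    · rw [Finset.card_insert_of_notMem, Finset.card_map, hK.2]
      intro hv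
      rw [Finset.mem_map] at hv
      obtain ⟨x, _, hx⟩ := hv
      have := x.2
      change G.Adj v x.1 at this
      have hx' : x.1 = v := hx
      rw [hx'] at this
      exact G.loopless.irrefl v this
  · rw [compl_comap]
    exact h2.comap ⟨(SimpleGraph.Embedding.comap _ Gᶜ).toCopy⟩

theorem good_rec {s t n a b : ℕ} (h : Good (s + 1) (t + 1) n) (hn : 1 ≤ n) (hab : a + b ≤ n) :
    Good s (t + 1) a ∨ Good (s + 1) t b := by
  classical
  obtain ⟨G, h1, h2⟩ := h
  set v : Fin n := ⟨0, hn⟩
  have hc : Fintype.card {x // G.Adj v x} + Fintype.card {x // Gᶜ.Adj v x} + 1 = n := by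
    rw [Fintype.card_subtype, Fintype.card_subtype]
    have hd : Disjoint (Finset.univ.filter fun x => G.Adj v x)
        (Finset.univ.filter fun x => Gᶜ.Adj v x) := by
      rw [Finset.disjoint_left]
      intro x hx hx'
      rw [Finset.mem_filter] at hx hx'
      exact ((SimpleGraph.compl_adj _ _ _).1 hx'.2).2 hx.2
    rw [← Finset.card_union_of_disjoint hd]
    have hu : (Finset.univ.filter fun x => G.Adj v x) ∪ (Finset.univ.filter fun x => Gᶜ.Adj v x) =
        Finset.univ.erase v := by
      ext x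
      rw [Finset.mem_union, Finset.mem_filter, Finset.mem_filter, Finset.mem_erase,
        SimpleGraph.compl_adj]
      constructor
      · rintro (⟨_, h⟩ | ⟨_, h⟩)
        · exact ⟨h.ne', Finset.mem_univ _⟩
        · exact ⟨fun h' => h.1 h'.symm, Finset.mem_univ _⟩
      · rintro ⟨h, _⟩
        by_cases hA : G.Adj v x
        · exact Or.inl ⟨Finset.mem_univ _, hA⟩
        · exact Or.inr ⟨Finset.mem_univ _, fun h' => h h'.symm, hA⟩
    rw [hu, Finset.card_erase_of_mem (Finset.mem_univ _), Finset.card_univ, Fintype.card_fin]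
    omega
  rcases le_or_gt a (Fintype.card {x // G.Adj v x}) with ha | ha
  · exact Or.inl (good_nbr G v h1 h2 ha)
  · right
    apply good_symm
    exact good_nbr Gᶜ v h2 (by rwa [compl_compl]) (by omega)

theorem exists_not_good (s t : ℕ) : ∃ n, ¬ Good s t n := by
  induction hN : s + t generalizing s t with
  | zero =>
    obtain rfl : s = 0 := by omega
    exact ⟨0, not_good_zero_left _ _⟩
  | succ N ih =>
    rcases s with _ | s
    · exact ⟨0, not_good_zero_left _ _⟩
    rcases t with _ | t
    · exact ⟨0, fun h => not_good_zero_left _ _ (good_symm h)⟩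
    obtain ⟨a, ha⟩ := ih s (t + 1) (by omega)
    obtain ⟨b, hb⟩ := ih (s + 1) t (by omega)
    refine ⟨a + b + 1, fun h => ?_⟩
    rcases good_rec h (by omega) (show a + b ≤ a + b + 1 by omega) with h | h
    · exact ha h
    · exact hb h

theorem good_iff (s t n : ℕ) : Good s t n ↔ n < R s t := by
  have hset : {n : ℕ | ∀ G : SimpleGraph (Fin n), ¬ G.CliqueFree s ∨ ¬ Gᶜ.CliqueFree t} =
      {n : ℕ | ¬ Good s t n} := by
    ext n
    change (∀ G : SimpleGraph (Fin n), ¬ G.CliqueFree s ∨ ¬ Gᶜ.CliqueFree t) ↔ ¬ Good s t n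
    unfold Good
    push Not
    constructor
    · intro h G h1
      rcases h G with h | h
      · exact absurd h1 h
      · exact h
    · intro h G
      by_cases h1 : G.CliqueFree s
      · exact Or.inr (h G h1)
      · exact Or.inl h1
  have hne : {n : ℕ | ¬ Good s t n}.Nonempty := exists_not_good s t
  unfold R
  rw [hset]
  constructor
  · intro h
    by_contra hcon
    exact Nat.sInf_mem hne (good_mono h (not_lt.1 hcon))
  · intro h
    by_contra hcon
    exact Nat.notMem_of_lt_sInf h hcon

theorem R_symm (s t : ℕ) : R s t = R t s := by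
  apply le_antisymm
  · by_contra h
    exact absurd (good_symm ((good_iff s t (R t s)).2 (not_le.1 h))) (by rw [good_iff]; omega)
  · by_contra h
    exact absurd (good_symm ((good_iff t s (R s t)).2 (not_le.1 h))) (by rw [good_iff]; omega)

theorem R_mono_right (s : ℕ) {t t' : ℕ} (h : t ≤ t') : R s t ≤ R s t' := by
  by_contra hcon
  have := good_mono_right ((good_iff s t (R s t')).2 (not_le.1 hcon)) h
  rw [good_iff] at this
  omega

theorem not_good_two (t : ℕ) : ¬ Good 2 (t + 1) (t + 1) := by
  rintro ⟨G, h1, h2⟩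
  rw [SimpleGraph.cliqueFree_two] at h1
  subst h1
  apply h2 Finset.univ
  rw [SimpleGraph.isNClique_iff]
  constructor
  · intro x _ y _ hxy
    rw [SimpleGraph.compl_adj]
    exact ⟨hxy, fun h => h⟩
  · simp

/-- the upper bound -/
theorem R_three_succ (t : ℕ) : R 3 (t + 1) ≤ R 3 t + (t + 1) := by
  by_contra hcon
  have h := (good_iff 3 (t + 1) (R 3 t + (t + 1))).2 (not_le.1 hcon)
  rcases good_rec (s := 2) h (by omega) (show (t + 1) + R 3 t ≤ R 3 t + (t + 1) by omega) with h | h
  · exact not_good_two t h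
  · rw [good_iff] at h
    exact absurd h (lt_irrefl _)

end Pool.Agent.N703.RD
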