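import Pool.Agent.N703.RD.Core

/-!
# Two-colour Ramsey numbers: the lower bound of Burr, Erdős, Faudree and Schelp
-/

set_option autoImplicit false

namespace Pool.Agent.N703.RD

theorem card_lt {V : Type} {G : SimpleGraph V} {k : ℕ} {K : Finset V} (h : G.CliqueFree k)
    (hK : G.IsClique K) : K.card < k := by
  by_contra h'
  exact (h.mono (not_lt.1 h')) K ⟨hK, rfl⟩

/-- the cone -/
def cone {n : ℕ} (G : SimpleGraph (Fin n)) : SimpleGraph (Option (Fin n)) where
  Adj x y := match x, y with
    | some a, some b => G.Adj a b
    | none, some _ => True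
    | some _, none => True
    | none, none => False
  symm := ⟨by
    rintro (_ | a) (_ | b) h
    · exact h
    · trivial
    · trivial
    · exact SimpleGraph.Adj.symm (G := G) h⟩
  loopless := ⟨by
    rintro (_ | a) h
    · exact h
    · exact G.loopless.irrefl a h⟩

theorem good_cone {k l n : ℕ} (h : Good k l n) (hl : 2 ≤ l) : Good (k + 1) l (n + 1) := by
  classical
  obtain ⟨G, h1, h2⟩ := h
  refine good_of (cone G) ?_ ?_ (by simp)
  · intro K hK
    set K' : Finset (Fin n) := Finset.univ.filter fun a => some a ∈ K with hK'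
    have hcl : G.IsClique K' := by
      intro a ha b hb hab
      rw [Finset.mem_coe, hK', Finset.mem_filter] at ha hb
      exact hK.isClique ha.2 hb.2 (fun h => hab (Option.some_injective _ h))
    have hsub : K ⊆ insert none (K'.image some) := by
      rintro (_ | a) ha
      · exact Finset.mem_insert_self _ _
      · apply Finset.mem_insert_of_mem
        rw [Finset.mem_image]
        exact ⟨a, Finset.mem_filter.2 ⟨Finset.mem_univ _, ha⟩, rfl⟩
    have h3 := card_lt h1 hcl
    have h4 := (Finset.card_le_card hsub).trans (Finset.card_insert_le _ _)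
    have h5 : (K'.image some).card ≤ K'.card := Finset.card_image_le
    have h6 := hK.card_eq
    omega
  · intro K hK
    by_cases hn : none ∈ K
    · have hsub : K ⊆ {none} := by
        rintro (_ | a) ha
        · simp
        · have := hK.isClique hn ha (by simp)
          rw [SimpleGraph.compl_adj] at this
          exact absurd trivial this.2
      have h3 := Finset.card_le_card hsub
      rw [Finset.card_singleton, hK.card_eq] at h3
      omega
    · set K' : Finset (Fin n) := Finset.univ.filter fun a => some a ∈ K with hK'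
      have hcl : Gᶜ.IsClique K' := by
        intro a ha b hb hab
        rw [Finset.mem_coe, hK', Finset.mem_filter] at ha hb
        have := hK.isClique ha.2 hb.2 (fun h => hab (Option.some_injective _ h))
        rw [SimpleGraph.compl_adj] at this ⊢
        exact ⟨hab, this.2⟩
      have hsub : K ⊆ K'.image some := by
        rintro (_ | a) ha
        · exact absurd ha hn
        · rw [Finset.mem_image]
          exact ⟨a, Finset.mem_filter.2 ⟨Finset.mem_univ _, ha⟩, rfl⟩
      have h3 := card_lt h2 hcl
      have h4 := Finset.card_le_card hsub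
      have h5 : (K'.image some).card ≤ K'.card := Finset.card_image_le
      have h6 := hK.card_eq
      omega

/-- the graph of the lower bound -/
def big {n m : ℕ} (G : SimpleGraph (Fin n)) (e : Fin m → Fin n) :
    SimpleGraph (Fin n ⊕ (Option (Fin m) ⊕ Fin m)) where
  Adj x y := match x, y with
    | Sum.inl a, Sum.inl a' => G.Adj a a'
    | Sum.inl a, Sum.inr (Sum.inl b) => ∃ c, a = e c ∧ b = some c
    | Sum.inr (Sum.inl b), Sum.inl a => ∃ c, a = e c ∧ b = some c
    | Sum.inl a, Sum.inr (Sum.inr c) => G.Adj a (e c)
    | Sum.inr (Sum.inr c), Sum.inl a => G.Adj a (e c)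
    | Sum.inr (Sum.inl b), Sum.inr (Sum.inl b') => b ≠ b'
    | Sum.inr (Sum.inl b), Sum.inr (Sum.inr c) => b ≠ some c
    | Sum.inr (Sum.inr c), Sum.inr (Sum.inl b) => b ≠ some c
    | Sum.inr (Sum.inr c), Sum.inr (Sum.inr c') => c ≠ c'
  symm := ⟨by
    rintro (a | b | c) (a' | b' | c') h
    · exact SimpleGraph.Adj.symm (G := G) h
    · exact h
    · exact h
    · exact h
    · exact Ne.symm h
    · exact h
    · exact h
    · exact h
    · exact Ne.symm h⟩
  loopless := ⟨by
    rintro (a | b | c) h
    · exact G.loopless.irrefl a h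
    · exact h rfl
    · exact h rfl⟩

theorem big_clique {n m : ℕ} (hm : 1 ≤ m) (G : SimpleGraph (Fin n)) (e : Fin m → Fin n)
    (he : ∀ c c', c ≠ c' → G.Adj (e c) (e c')) (h1 : G.CliqueFree (m + 2)) :
    (big G e).CliqueFree (m + 2) := by
  classical
  intro K hK
  have hadj : ∀ x ∈ K, ∀ y ∈ K, x ≠ y → (big G e).Adj x y := fun x hx y hy hxy =>
    hK.isClique hx hy hxy
  by_cases hA : ∃ a, Sum.inl a ∈ K
  · by_cases hB : ∃ b, Sum.inr (Sum.inl b) ∈ K
    · obtain ⟨a, ha⟩ := hA
      obtain ⟨b, hb⟩ := hB
      obtain ⟨c, hac, hbc⟩ : ∃ c, a = e c ∧ b = some c := hadj _ ha _ hb (by simp)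
      have hsub : K ⊆ insert (Sum.inl a) (insert (Sum.inr (Sum.inl b))
          ((Finset.univ.erase c).image fun c => Sum.inr (Sum.inr c))) := by
        rintro (a' | b' | c') hx
        · obtain ⟨c', h1', h2'⟩ : ∃ c, a' = e c ∧ b = some c := hadj _ hx _ hb (by simp)
          have : c' = c := by
            rw [hbc] at h2'
            exact (Option.some_injective _ h2').symm
          rw [h1', this, ← hac]
          exact Finset.mem_insert_self _ _
        · obtain ⟨c', h1', h2'⟩ : ∃ c, a = e c ∧ b' = some c := hadj _ ha _ hx (by simp)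
          have : c' = c := by
            by_contra hne
            have := he _ _ hne
            rw [← h1', ← hac] at this
            exact G.loopless.irrefl _ this
          rw [h2', this, ← hbc]
          exact Finset.mem_insert_of_mem (Finset.mem_insert_self _ _)
        · apply Finset.mem_insert_of_mem
          apply Finset.mem_insert_of_mem
          rw [Finset.mem_image]
          refine ⟨c', ?_, rfl⟩
          rw [Finset.mem_erase]
          refine ⟨?_, Finset.mem_univ _⟩
          rintro rfl
          have : b ≠ some c' := hadj _ hb _ hx (by simp)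
          exact this hbc
      have h3 := (Finset.card_le_card hsub).trans ((Finset.card_insert_le _ _).trans
        (Nat.succ_le_succ (Finset.card_insert_le _ _)))
      have h4 : (((Finset.univ.erase c).image
          fun c => (Sum.inr (Sum.inr c) : Fin n ⊕ (Option (Fin m) ⊕ Fin m)))).card ≤ m - 1 := by
        refine Finset.card_image_le.trans ?_
        rw [Finset.card_erase_of_mem (Finset.mem_univ _), Finset.card_univ, Fintype.card_fin]
      have h5 := hK.card_eq
      omega
    · -- no element of the second part
      let f : Fin n ⊕ (Option (Fin m) ⊕ Fin m) → Fin n := fun x => match x with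
        | Sum.inl a => a
        | Sum.inr (Sum.inl _) => e ⟨0, hm⟩
        | Sum.inr (Sum.inr c) => e c
      have hf : ∀ x ∈ K, ∀ y ∈ K, x ≠ y → G.Adj (f x) (f y) := by
        rintro (a | b | c) hx (a' | b' | c') hy hxy
        · exact hadj _ hx _ hy hxy
        · exact absurd ⟨b', hy⟩ hB
        · exact hadj _ hx _ hy hxy
        · exact absurd ⟨b, hx⟩ hB
        · exact absurd ⟨b, hx⟩ hB
        · exact absurd ⟨b, hx⟩ hB
        · exact SimpleGraph.Adj.symm (G := G) (hadj _ hx _ hy hxy)
        · exact absurd ⟨b', hy⟩ hB
        · exact he _ _ (fun h => hxy (by rw [h]))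
      have hinj : Set.InjOn f K := by
        intro x hx y hy hxy
        by_contra hne
        have := hf x hx y hy hne
        rw [hxy] at this
        exact G.loopless.irrefl _ this
      have hcl : G.IsClique (K.image f) := by
        intro u hu v hv huv
        rw [Finset.mem_coe, Finset.mem_image] at hu hv
        obtain ⟨x, hx, rfl⟩ := hu
        obtain ⟨y, hy, rfl⟩ := hv
        exact hf x hx y hy (fun h => huv (by rw [h]))
      have h3 := card_lt h1 hcl
      rw [Finset.card_image_of_injOn hinj, hK.card_eq] at h3
      omega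
  · -- no element of the first part
    let f : Fin n ⊕ (Option (Fin m) ⊕ Fin m) → Option (Fin m) := fun x => match x with
      | Sum.inl _ => none
      | Sum.inr (Sum.inl b) => b
      | Sum.inr (Sum.inr c) => some c
    have hf : ∀ x ∈ K, ∀ y ∈ K, x ≠ y → f x ≠ f y := by
      rintro (a | b | c) hx (a' | b' | c') hy hxy
      · exact absurd ⟨a, hx⟩ hA
      · exact absurd ⟨a, hx⟩ hA
      · exact absurd ⟨a, hx⟩ hA
      · exact absurd ⟨a', hy⟩ hA
      · exact hadj _ hx _ hy hxy
      · exact hadj _ hx _ hy hxy
      · exact absurd ⟨a', hy⟩ hA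
      · exact Ne.symm (hadj _ hx _ hy hxy)
      · exact fun h => (hadj _ hx _ hy hxy : c ≠ c') (Option.some_injective _ h)
    have hinj : Set.InjOn f K := by
      intro x hx y hy hxy
      by_contra hne
      exact hf x hx y hy hne hxy
    have h3 := Finset.card_le_univ (K.image f)
    rw [Finset.card_image_of_injOn hinj, hK.card_eq] at h3
    simp at h3

theorem big_indep {n m l : ℕ} (G : SimpleGraph (Fin n)) (e : Fin m → Fin n)
    (h2 : Gᶜ.CliqueFree l) : (big G e)ᶜ.CliqueFree (l + 1) := by
  classical
  intro K hK
  have hadj : ∀ x ∈ K, ∀ y ∈ K, x ≠ y → ¬ (big G e).Adj x y := fun x hx y hy hxy =>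
    ((SimpleGraph.compl_adj _ _ _).1 (hK.isClique hx hy hxy)).2
  set K' : Finset (Fin n) := Finset.univ.filter fun a => Sum.inl a ∈ K with hK'
  have hmem : ∀ a, a ∈ K' ↔ Sum.inl a ∈ K := by
    intro a
    rw [hK', Finset.mem_filter]
    simp
  have hcl : Gᶜ.IsClique K' := by
    intro a ha b hb hab
    rw [Finset.mem_coe, hmem] at ha hb
    rw [SimpleGraph.compl_adj]
    exact ⟨hab, hadj _ ha _ hb (fun h => hab (Sum.inl_injective h))⟩
  have h3 := card_lt h2 hcl
  have hKc := hK.card_eq
  have himg : (K'.image (Sum.inl : Fin n → Fin n ⊕ (Option (Fin m) ⊕ Fin m))).card ≤ K'.card :=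
    Finset.card_image_le
  by_cases hB : ∃ b, Sum.inr (Sum.inl b) ∈ K
  · obtain ⟨b, hb⟩ := hB
    have hBu : ∀ b', Sum.inr (Sum.inl b') ∈ K → b' = b := by
      intro b' hb'
      by_contra hne
      exact hadj _ hb' _ hb (by simpa using hne) hne
    by_cases hC : ∃ c, Sum.inr (Sum.inr c) ∈ K
    · obtain ⟨c, hc⟩ := hC
      have hCu : ∀ c', Sum.inr (Sum.inr c') ∈ K → c' = c := by
        intro c' hc'
        by_contra hne
        exact hadj _ hc' _ hc (by simpa using hne) hne
      have hbc : b = some c := by
        by_contra hne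
        exact hadj _ hb _ hc (by simp) hne
      have hsub : K ⊆ insert (Sum.inr (Sum.inl b)) (insert (Sum.inr (Sum.inr c))
          (K'.image Sum.inl)) := by
        rintro (a | b' | c') hx
        · apply Finset.mem_insert_of_mem
          apply Finset.mem_insert_of_mem
          exact Finset.mem_image_of_mem _ ((hmem a).2 hx)
        · rw [hBu b' hx]
          exact Finset.mem_insert_self _ _
        · rw [hCu c' hx]
          exact Finset.mem_insert_of_mem (Finset.mem_insert_self _ _)
      have h4 := (Finset.card_le_card hsub).trans ((Finset.card_insert_le _ _).trans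
        (Nat.succ_le_succ (Finset.card_insert_le _ _)))
      have hec : e c ∉ K' := by
        intro h
        rw [hmem] at h
        exact hadj _ h _ hb (by simp) ⟨c, rfl, hbc⟩
      have hcl' : Gᶜ.IsClique (insert (e c) K' : Finset (Fin n)) := by
        rw [Finset.coe_insert]
        rw [SimpleGraph.isClique_insert]
        refine ⟨hcl, ?_⟩
        intro a ha hne
        rw [Finset.mem_coe, hmem] at ha
        rw [SimpleGraph.compl_adj]
        refine ⟨hne, fun h => ?_⟩
        exact hadj _ ha _ hc (by simp) (SimpleGraph.Adj.symm (G := G) h)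
      have h5 := card_lt h2 hcl'
      rw [Finset.card_insert_of_notMem hec] at h5
      omega
    · have hsub : K ⊆ insert (Sum.inr (Sum.inl b)) (K'.image Sum.inl) := by
        rintro (a | b' | c') hx
        · apply Finset.mem_insert_of_mem
          exact Finset.mem_image_of_mem _ ((hmem a).2 hx)
        · rw [hBu b' hx]
          exact Finset.mem_insert_self _ _
        · exact absurd ⟨c', hx⟩ hC
      have h4 := (Finset.card_le_card hsub).trans (Finset.card_insert_le _ _)
      omega
  · by_cases hC : ∃ c, Sum.inr (Sum.inr c) ∈ K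
    · obtain ⟨c, hc⟩ := hC
      have hCu : ∀ c', Sum.inr (Sum.inr c') ∈ K → c' = c := by
        intro c' hc'
        by_contra hne
        exact hadj _ hc' _ hc (by simpa using hne) hne
      have hsub : K ⊆ insert (Sum.inr (Sum.inr c)) (K'.image Sum.inl) := by
        rintro (a | b' | c') hx
        · apply Finset.mem_insert_of_mem
          exact Finset.mem_image_of_mem _ ((hmem a).2 hx)
        · exact absurd ⟨b', hx⟩ hB
        · rw [hCu c' hx]
          exact Finset.mem_insert_self _ _
      have h4 := (Finset.card_le_card hsub).trans (Finset.card_insert_le _ _)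
      omega
    · have hsub : K ⊆ K'.image Sum.inl := by
        rintro (a | b' | c') hx
        · exact Finset.mem_image_of_mem _ ((hmem a).2 hx)
        · exact absurd ⟨b', hx⟩ hB
        · exact absurd ⟨c', hx⟩ hC
      have h4 := Finset.card_le_card hsub
      omega

theorem R_cone {k l : ℕ} (hl : 2 ≤ l) (hk : 1 ≤ k) : R k l + 1 ≤ R (k + 1) l := by
  have h0 : 0 < R k l := by
    rw [← good_iff]
    refine ⟨⊥, ?_, ?_⟩
    · intro K hK
      have := hK.card_eq
      have h' := Finset.card_le_univ K
      simp at h'
      rw [h'] at this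
      simp at this
      omega
    · intro K hK
      have := hK.card_eq
      have h' := Finset.card_le_univ K
      simp at h'
      rw [h'] at this
      simp at this
      omega
  have h := good_cone ((good_iff k l (R k l - 1)).2 (by omega)) hl
  rw [good_iff] at h
  omega

/-- the lower bound -/
theorem R_succ_ge {k l : ℕ} (hk : 3 ≤ k) (hl : 2 ≤ l) : R k l + (2 * k - 3) ≤ R k (l + 1) := by
  obtain ⟨m, rfl⟩ : ∃ m, k = m + 2 := ⟨k - 2, by omega⟩
  have h1 := R_cone (k := m) hl (by omega)
  have h2 : R (m + 1) l + 1 ≤ R (m + 2) l := R_cone (k := m + 1) hl (by omega)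
  obtain ⟨G, hG1, hG2⟩ := (good_iff (m + 2) l (R (m + 2) l - 1)).2 (by omega)
  have hG3 : ¬ G.CliqueFree m := by
    intro h
    have := (good_iff m l (R (m + 2) l - 1)).1 ⟨G, h, hG2⟩
    omega
  let e := SimpleGraph.topEmbeddingOfNotCliqueFree hG3
  have he : ∀ c c', c ≠ c' → G.Adj (e c) (e c') := by
    intro c c' hcc
    exact e.map_rel_iff.2 hcc
  have h3 := good_of (big G e) (big_clique (by omega) G e he hG1) (big_indep G e hG2) le_rfl
  rw [good_iff] at h3
  simp at h3
  omega

/-- the case `s₁ = 3` of the diagonal conjecture -/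
theorem main (s₂ t₁ t₂ : ℕ) (h1 : 3 ≤ s₂) (h2 : s₂ ≤ t₂) (h4 : 3 + t₁ ≤ s₂ + t₂) :
    R 3 t₁ ≤ R s₂ t₂ := by
  have key : ∀ i, i + 3 ≤ t₂ → R 3 (t₂ + i) ≤ R (3 + i) t₂ := by
    intro i
    induction i with
    | zero => intro _; exact le_rfl
    | succ i ih =>
      intro hi
      have h5 := ih (by omega)
      have h6 := R_three_succ (t₂ + i)
      have h7 := R_succ_ge (k := t₂) (l := 3 + i) (by omega) (by omega)
      rw [R_symm t₂ (3 + i), R_symm t₂ (3 + i + 1)] at h7
      rw [show t₂ + (i + 1) = t₂ + i + 1 by omega, show 3 + (i + 1) = 3 + i + 1 by omega]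
      omega
  have h5 := key (s₂ - 3) (by omega)
  rw [show 3 + (s₂ - 3) = s₂ by omega] at h5
  exact (R_mono_right 3 (by omega)).trans h5

end Pool.Agent.N703.RD
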